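import Mathlib

/-!
# Expansions in the mixed radix with the weights `2 ^ (k ^ 2)`
-/

open Finset

namespace MP_018e2a_an.OneSet

/-- the weights -/
def w (k : ℕ) : ℕ := 2 ^ (k ^ 2)

/-- the bases: `w (k + 1) = w k * M k` -/
def M (k : ℕ) : ℕ := 2 ^ (2 * k + 1)

/-- the digits -/
def dig (a k : ℕ) : ℕ := a / w k % M k

/-- the value -/
def val (K : ℕ) (x : ℕ → ℕ) : ℕ := ∑ k ∈ range K, x k * w k

theorem w_pos (k : ℕ) : 0 < w k := by unfold w; positivity

theorem M_pos (k : ℕ) : 0 < M k := by unfold M; positivity

theorem two_le_M (k : ℕ) : 2 ≤ M k := by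
  unfold M
  calc 2 = 2 ^ 1 := by norm_num
    _ ≤ 2 ^ (2 * k + 1) := Nat.pow_le_pow_right (by norm_num) (by omega)

theorem w_succ (k : ℕ) : w (k + 1) = w k * M k := by
  unfold w M
  rw [← pow_add]
  congr 1
  ring

theorem w_mono {k l : ℕ} (h : k ≤ l) : w k ≤ w l := by
  unfold w
  exact Nat.pow_le_pow_right (by norm_num) (Nat.pow_le_pow_left h 2)

theorem lt_w (a : ℕ) : a < w a := by
  unfold w
  calc a < 2 ^ a := Nat.lt_two_pow_self
    _ ≤ 2 ^ (a ^ 2) := Nat.pow_le_pow_right (by norm_num) (by nlinarith [Nat.zero_le a])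

theorem dig_lt (a k : ℕ) : dig a k < M k := Nat.mod_lt _ (M_pos k)

theorem dig_eq_zero {a K k : ℕ} (ha : a < w K) (hk : K ≤ k) : dig a k = 0 := by
  unfold dig
  rw [Nat.div_eq_of_lt (lt_of_lt_of_le ha (w_mono hk)), Nat.zero_mod]

theorem val_dig_mod (a K : ℕ) : val K (dig a) = a % w K := by
  induction K with
  | zero => simp [val, w, Nat.mod_one]
  | succ K ih =>
    have h1 : val (K + 1) (dig a) = val K (dig a) + dig a K * w K := by
      unfold val
      rw [sum_range_succ]
    rw [h1, ih, w_succ, Nat.mod_mul, dig, mul_comm]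

theorem val_dig {a K : ℕ} (ha : a < w K) : val K (dig a) = a := by
  rw [val_dig_mod, Nat.mod_eq_of_lt ha]

theorem val_lt {K : ℕ} {x : ℕ → ℕ} (hx : ∀ k < K, x k < M k) : val K x < w K := by
  induction K with
  | zero => simp [val, w]
  | succ K ih =>
    have h1 : val (K + 1) x = val K x + x K * w K := by
      unfold val
      rw [sum_range_succ]
    have h2 := ih fun k hk => hx k (by omega)
    have h3 : x K + 1 ≤ M K := hx K (by omega)
    have h4 : (x K + 1) * w K ≤ M K * w K := Nat.mul_le_mul_right _ h3
    rw [h1, w_succ]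
    nlinarith

theorem val_inj {K : ℕ} {x y : ℕ → ℕ} (hx : ∀ k < K, x k < M k) (hy : ∀ k < K, y k < M k)
    (h : val K x = val K y) : ∀ k < K, x k = y k := by
  induction K with
  | zero => intro k hk; omega
  | succ K ih =>
    have h1 : ∀ z : ℕ → ℕ, val (K + 1) z = val K z + w K * z K := by
      intro z
      unfold val
      rw [sum_range_succ, mul_comm (w K)]
    have h2 := val_lt (K := K) fun k hk => hx k (by omega)
    have h3 := val_lt (K := K) fun k hk => hy k (by omega)
    rw [h1, h1] at h
    have h4 : x K = y K := by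
      have e1 : (val K x + w K * x K) / w K = x K := by
        rw [Nat.add_mul_div_left _ _ (w_pos K), Nat.div_eq_of_lt h2, zero_add]
      have e2 : (val K y + w K * y K) / w K = y K := by
        rw [Nat.add_mul_div_left _ _ (w_pos K), Nat.div_eq_of_lt h3, zero_add]
      rw [← e1, ← e2, h]
    have h5 : val K x = val K y := by
      rw [h4] at h
      exact Nat.add_right_cancel h
    intro k hk
    rcases Nat.lt_succ_iff_lt_or_eq.1 hk with h6 | h6
    · exact ih (fun k hk => hx k (by omega)) (fun k hk => hy k (by omega)) h5 k h6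
    · rw [h6, h4]

theorem val_add (K : ℕ) (x y : ℕ → ℕ) : val K (x + y) = val K x + val K y := by
  unfold val
  rw [← sum_add_distrib]
  refine sum_congr rfl fun k _ => ?_
  rw [Pi.add_apply, add_mul]

/-- the numbers below `w K` no digit of which is the largest possible one -/
def good (K : ℕ) : Finset ℕ := (range (w K)).filter fun a => ∀ k < K, dig a k + 2 ≤ M k

theorem card_good_le (K : ℕ) : (good K).card ≤ w K := by
  unfold good
  exact (card_filter_le _ _).trans (by rw [card_range])

theorem good_zero : (good 0).card = 1 := by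
  unfold good
  rw [filter_true_of_mem (by intro a _ k hk; omega), card_range]
  simp [w]

theorem dig_add {a d K k : ℕ} (ha : a < w K) (hd : d < M K) :
    dig (a + w K * d) k = if k < K then dig a k else if k = K then d else 0 := by
  have hb : a + w K * d < w (K + 1) := by
    rw [w_succ]
    have : w K * (d + 1) ≤ w K * M K := Nat.mul_le_mul_left _ hd
    nlinarith
  have hx : ∀ l < K + 1, (fun l => if l < K then dig a l else if l = K then d else 0) l < M l := by
    intro l hl
    simp only
    split_ifs with h1 h2
    · exact dig_lt a l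
    · rw [h2]; exact hd
    · omega
  have h1 : val (K + 1) (fun l => if l < K then dig a l else if l = K then d else 0) = a + w K * d := by
    unfold val
    rw [sum_range_succ]
    have e1 : ∑ l ∈ range K, (if l < K then dig a l else if l = K then d else 0) * w l = val K (dig a) := by
      unfold val
      refine sum_congr rfl fun l hl => ?_
      rw [if_pos (mem_range.1 hl)]
    rw [e1, val_dig ha]
    simp only [lt_irrefl, if_false, if_true]
    rw [mul_comm]
  have h2 := val_inj (K := K + 1) (fun l _ => dig_lt (a + w K * d) l) hx (by rw [val_dig hb, h1])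
  by_cases hk : k < K + 1
  · exact h2 k hk
  · rw [dig_eq_zero hb (by omega), if_neg (by omega), if_neg (by omega)]

theorem card_good_succ (K : ℕ) : (good K).card * (M K - 1) ≤ (good (K + 1)).card := by
  have h : ((good K) ×ˢ (range (M K - 1))).card ≤ (good (K + 1)).card := by
    refine card_le_card_of_injOn (fun p => p.1 + w K * p.2) ?_ ?_
    · rintro ⟨a, d⟩ hp
      rw [Finset.mem_coe, mem_product, mem_range] at hp
      obtain ⟨h1, h2⟩ := hp
      unfold good at h1 ⊢
      rw [mem_filter, mem_range] at h1
      simp only [Finset.coe_filter, Set.mem_ofPred_eq, mem_range] at *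
      have hd : d < M K := by omega
      refine ⟨?_, ?_⟩
      · rw [w_succ]
        have : w K * (d + 1) ≤ w K * M K := Nat.mul_le_mul_left _ hd
        nlinarith [h1.1]
      · intro k hk
        rw [dig_add h1.1 hd]
        split_ifs with h3 h4
        · exact h1.2 k h3
        · subst h4; omega
        · omega
    · rintro ⟨a, d⟩ hp ⟨b, e⟩ hq h
      rw [Finset.mem_coe, mem_product] at hp hq
      unfold good at hp hq
      rw [mem_filter, mem_range] at hp hq
      simp only at h hp hq
      have h3 : d = e := by
        have e1 : (a + w K * d) / w K = d := by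
          rw [Nat.add_mul_div_left _ _ (w_pos K), Nat.div_eq_of_lt hp.1.1, zero_add]
        have e2 : (b + w K * e) / w K = e := by
          rw [Nat.add_mul_div_left _ _ (w_pos K), Nat.div_eq_of_lt hq.1.1, zero_add]
        rw [← e1, ← e2, h]
      subst h3
      have h4 : a = b := Nat.add_right_cancel h
      rw [h4]
  rwa [card_product, card_range] at h

theorem card_good_ge (K : ℕ) : w K * (4 ^ K + 2) ≤ 3 * 4 ^ K * (good K).card := by
  induction K with
  | zero => rw [good_zero]; simp [w]
  | succ K ih =>
    have h1 := card_good_succ K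
    have h2 := card_good_le K
    have hM : M K = 2 * 4 ^ K := by
      unfold M
      rw [pow_succ, pow_mul]
      norm_num
      ring
    obtain ⟨m, hm⟩ : ∃ m, M K = m + 1 := ⟨M K - 1, by have := M_pos K; omega⟩
    rw [hm, Nat.add_sub_cancel] at h1
    have h3 : 3 * 4 ^ (K + 1) * ((good K).card * m) ≤ 3 * 4 ^ (K + 1) * (good (K + 1)).card :=
      Nat.mul_le_mul_left _ h1
    refine le_trans ?_ h3
    have h4 : (M K) * (w K * (4 ^ K + 2)) ≤ M K * (3 * 4 ^ K * (good K).card) := Nat.mul_le_mul_left _ ih
    rw [w_succ, pow_succ]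
    rw [hM] at hm h4 ⊢
    have h5 : (good K).card * m + (good K).card = (good K).card * (2 * 4 ^ K) := by rw [hm]; ring
    nlinarith

theorem card_good_third (K : ℕ) : (w K : ℝ) / 3 ≤ (good K).card := by
  have h := card_good_ge K
  have h1 : (w K : ℝ) * (4 ^ K + 2) ≤ 3 * 4 ^ K * (good K).card := by exact_mod_cast h
  have h2 : (0 : ℝ) < 4 ^ K := by positivity
  have h3 : (0 : ℝ) ≤ w K := by positivity
  have h4 : (w K : ℝ) * 4 ^ K ≤ 3 * 4 ^ K * (good K).card := by nlinarith
  have h5 : (w K : ℝ) * 4 ^ K ≤ (3 * (good K).card) * 4 ^ K := by linarith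
  have h6 := le_of_mul_le_mul_right h5 h2
  linarith

end MP_018e2a_an.OneSet
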