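import Mathlib

/-!
# Furstenberg's correspondence principle for sets of integers of positive upper density
-/

open Finset MeasureTheory Filter Topology

namespace MP_018e2a_an.OneSet

/-- the shift -/
def sh (x : ℕ → Bool) : ℕ → Bool := fun n => x (n + 1)

theorem sh_cont : Continuous sh := by
  unfold sh
  exact continuous_pi fun n => continuous_apply (n + 1)

theorem sh_iter (x : ℕ → Bool) (r n : ℕ) : (sh^[r] x) n = x (n + r) := by
  induction r generalizing x with
  | zero => rfl
  | succ r ih =>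
    rw [Function.iterate_succ_apply, ih]
    show x (n + r + 1) = _
    rw [add_assoc]

/-- the averages of the point masses along an orbit -/
noncomputable def avM (x : ℕ → Bool) (n : ℕ) : Measure (ℕ → Bool) :=
  ((n : ENNReal) + 1)⁻¹ • ∑ i ∈ range (n + 1), Measure.dirac (sh^[i] x)

theorem avM_prob (x : ℕ → Bool) (n : ℕ) : IsProbabilityMeasure (avM x n) := by
  constructor
  unfold avM
  rw [Measure.smul_apply, Measure.finsetSum_apply]
  simp only [measure_univ, sum_const, card_range, nsmul_eq_mul, mul_one, smul_eq_mul]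
  push_cast
  exact ENNReal.inv_mul_cancel (by simp) (by simp)

/-- as probability measures -/
noncomputable def av (x : ℕ → Bool) (n : ℕ) : ProbabilityMeasure (ℕ → Bool) := ⟨avM x n, avM_prob x n⟩

theorem int_av (x : ℕ → Bool) (n : ℕ) (f : BoundedContinuousFunction (ℕ → Bool) ℝ) :
    ∫ y, f y ∂((av x n : ProbabilityMeasure (ℕ → Bool)) : Measure (ℕ → Bool)) =
      (∑ i ∈ range (n + 1), f (sh^[i] x)) / ((n : ℝ) + 1) := by
  show ∫ y, f y ∂(avM x n) = _
  unfold avM
  rw [integral_smul_measure, integral_finsetSum_measure]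
  · simp only [integral_dirac, smul_eq_mul]
    rw [ENNReal.toReal_inv, div_eq_inv_mul]
    congr 2
  · intro i _
    exact BoundedContinuousFunction.integrable _ f

/-- the indicator of a clopen set -/
noncomputable def cl (B : Set (ℕ → Bool)) (hB : IsClopen B) : BoundedContinuousFunction (ℕ → Bool) ℝ :=
  BoundedContinuousFunction.mkOfCompact ⟨B.indicator fun _ => (1 : ℝ), hB.continuous_indicator continuous_const⟩

theorem cl_apply (B : Set (ℕ → Bool)) (hB : IsClopen B) (y : ℕ → Bool) :
    cl B hB y = B.indicator (fun _ => (1 : ℝ)) y := rfl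

theorem int_cl (μ : ProbabilityMeasure (ℕ → Bool)) (B : Set (ℕ → Bool)) (hB : IsClopen B) :
    ∫ y, cl B hB y ∂(μ : Measure (ℕ → Bool)) = (μ : Measure (ℕ → Bool)).real B := by
  simp only [cl_apply]
  rw [integral_indicator hB.1.measurableSet]
  simp


/-- Furstenberg's correspondence in finite form: if `R` is a set of recurrence, then every subset of
`[0, N)` with at least `ε N` elements, `N` large, contains `a` and `a + r` for some `r ∈ R`. -/
theorem furstenberg {R : Set ℕ}
    (h : ∀ (X : Type) [MeasurableSpace X] (μ : Measure X) [IsProbabilityMeasure μ]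
      (S : X → X), MeasurePreserving S μ μ → ∀ A : Set X, MeasurableSet A → 0 < μ A →
        ∃ r ∈ R, 0 < μ (A ∩ (S^[r]) ⁻¹' A))
    {c : ℝ} (hc : 0 < c) :
    ∃ N₀ : ℕ, ∀ N ≥ N₀, ∀ L : Finset ℕ, L ⊆ range N → c * N ≤ L.card →
      ∃ r ∈ R, ∃ a ∈ L, a + r ∈ L := by
  classical
  by_contra hno
  push Not at hno
  -- the bad `N`, in the index `n = N - 1`
  set G : Set ℕ := {n | ∃ L : Finset ℕ, L ⊆ range (n + 1) ∧ c * ((n : ℝ) + 1) ≤ L.card ∧
    ∀ r ∈ R, ∀ a ∈ L, a + r ∉ L} with hG
  have hfreq : ∃ᶠ n : ℕ in atTop, n ∈ G := by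
    rw [frequently_atTop]
    intro a
    obtain ⟨b, hb, L, h1, h2, h3⟩ := hno (a + 1)
    have h4 : b - 1 + 1 = b := by omega
    refine ⟨b - 1, by omega, L, by rwa [h4], ?_, h3⟩
    have h5 : (((b - 1 : ℕ) : ℝ) + 1) = b := by
      rw [← Nat.cast_one (R := ℝ), ← Nat.cast_add, h4]
    rw [h5]
    exact h2
  choose! LL hLL1 hLL2 hLL3 using fun (n : ℕ) (hn : n ∈ G) => hn
  set x : ℕ → ℕ → Bool := fun n i => decide (i ∈ LL n) with hx
  have hNe : (atTop ⊓ 𝓟 G).NeBot := by
    rw [← frequently_mem_iff_neBot]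
    exact hfreq
  obtain ⟨U, hU⟩ := Ultrafilter.exists_le (atTop ⊓ 𝓟 G)
  have hU1 : (U : Filter ℕ) ≤ atTop := hU.trans inf_le_left
  have hU2 : G ∈ U := hU (mem_inf_of_right (mem_principal_self G))
  obtain ⟨μ, -, hμ⟩ := (isCompact_univ (X := ProbabilityMeasure (ℕ → Bool))).ultrafilter_le_nhds'
    (U.map fun n => av (x n) n) (Filter.univ_mem)
  have hlim : Tendsto (fun n => av (x n) n) U (𝓝 μ) := hμ
  have hint : ∀ f : BoundedContinuousFunction (ℕ → Bool) ℝ,
      Tendsto (fun n => (∑ i ∈ range (n + 1), f (sh^[i] (x n))) / ((n : ℝ) + 1)) U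
        (𝓝 (∫ y, f y ∂(μ : Measure (ℕ → Bool)))) := by
    intro f
    have h1 := (ProbabilityMeasure.tendsto_iff_forall_integral_tendsto.1 hlim) f
    simpa only [int_av] using h1
  have hn1 : Tendsto (fun n : ℕ => ((n : ℝ) + 1)) U atTop :=
    (tendsto_atTop_add_const_right atTop 1 tendsto_natCast_atTop_atTop).mono_left hU1
  -- invariance
  have hinv : MeasurePreserving sh (μ : Measure (ℕ → Bool)) (μ : Measure (ℕ → Bool)) := by
    refine ⟨sh_cont.measurable, ?_⟩
    have : IsFiniteMeasure (Measure.map sh (μ : Measure (ℕ → Bool))) :=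
      Measure.isFiniteMeasure_map _ _
    refine ext_of_forall_integral_eq_of_IsFiniteMeasure fun f => ?_
    rw [integral_map sh_cont.aemeasurable f.continuous.aestronglyMeasurable]
    set g : BoundedContinuousFunction (ℕ → Bool) ℝ := f.compContinuous ⟨sh, sh_cont⟩ with hg
    have h1 := hint f
    have h2 := hint g
    have h3 : Tendsto (fun n : ℕ => (∑ i ∈ range (n + 1), g (sh^[i] (x n))) / ((n : ℝ) + 1) -
        (∑ i ∈ range (n + 1), f (sh^[i] (x n))) / ((n : ℝ) + 1)) U (𝓝 0) := by
      have e1 : ∀ n : ℕ, (∑ i ∈ range (n + 1), g (sh^[i] (x n))) / ((n : ℝ) + 1) -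
          (∑ i ∈ range (n + 1), f (sh^[i] (x n))) / ((n : ℝ) + 1) =
          (f (sh^[n + 1] (x n)) - f (x n)) / ((n : ℝ) + 1) := by
        intro n
        rw [← sub_div]
        congr 1
        have e2 : ∀ i, g (sh^[i] (x n)) = f (sh^[i + 1] (x n)) := by
          intro i
          rw [Function.iterate_succ_apply']
          rfl
        simp only [e2]
        rw [sum_range_succ (fun i => f (sh^[i + 1] (x n))), sum_range_succ' (fun i => f (sh^[i] (x n)))]
        simp only [Function.iterate_zero, id]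
        ring
      simp only [e1]
      refine squeeze_zero_norm (a := fun n : ℕ => (2 * ‖f‖) / ((n : ℝ) + 1)) ?_ ?_
      · intro n
        rw [norm_div, Real.norm_of_nonneg (by positivity : (0 : ℝ) ≤ (n : ℝ) + 1)]
        refine div_le_div_of_nonneg_right ?_ (by positivity)
        refine (norm_sub_le _ _).trans ?_
        have := f.norm_coe_le_norm (sh^[n + 1] (x n))
        have := f.norm_coe_le_norm (x n)
        linarith
      · exact Tendsto.div_atTop tendsto_const_nhds hn1
    have h4 := tendsto_nhds_unique (h2.sub h1) h3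
    exact sub_eq_zero.1 h4
  -- the set
  set A : Set (ℕ → Bool) := {y | y 0 = true} with hA
  have hAcl : IsClopen A := by
    have : A = (fun y : ℕ → Bool => y 0) ⁻¹' {true} := rfl
    rw [this]
    exact (isClopen_discrete ({true} : Set Bool)).preimage (continuous_apply 0)
  have hApos : 0 < (μ : Measure (ℕ → Bool)) A := by
    have h1 := hint (cl A hAcl)
    rw [int_cl] at h1
    have h2 : c ≤ (μ : Measure (ℕ → Bool)).real A := by
      refine ge_of_tendsto h1 ?_
      filter_upwards [hU2] with n hn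
      rw [le_div_iff₀ (by positivity)]
      refine le_trans (hLL2 n hn) (le_of_eq ?_)
      have e1 : ∀ i, cl A hAcl (sh^[i] (x n)) = if i ∈ LL n then 1 else 0 := by
        intro i
        rw [cl_apply, Set.indicator_apply]
        have e2 : sh^[i] (x n) ∈ A ↔ i ∈ LL n := by
          show (sh^[i] (x n)) 0 = true ↔ _
          rw [sh_iter, zero_add, hx]
          simp
        simp only [e2]
      simp only [e1]
      rw [Finset.sum_boole, Finset.filter_mem_eq_inter, Finset.inter_eq_right.2 (hLL1 n hn)]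
    have h3 : 0 < (μ : Measure (ℕ → Bool)).real A := lt_of_lt_of_le hc h2
    rw [Measure.real] at h3
    exact (ENNReal.toReal_pos_iff.1 h3).1
  obtain ⟨r, hr, h5⟩ := h (ℕ → Bool) (μ : Measure (ℕ → Bool)) sh hinv A hAcl.1.measurableSet hApos
  have hcr : Continuous (sh^[r]) := sh_cont.iterate r
  have hBcl : IsClopen (A ∩ (sh^[r]) ⁻¹' A) := hAcl.inter (hAcl.preimage hcr)
  have h6 := hint (cl _ hBcl)
  rw [int_cl] at h6
  have h7 : 0 < (μ : Measure (ℕ → Bool)).real (A ∩ (sh^[r]) ⁻¹' A) :=
    ENNReal.toReal_pos h5.ne' (measure_ne_top _ _)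
  have h8 := (h6.eventually (lt_mem_nhds h7)).and (Filter.eventually_iff.2 hU2 : ∀ᶠ n in (U : Filter ℕ), n ∈ G)
  obtain ⟨n, hn, hnG⟩ := h8.exists
  have h9 : (∑ i ∈ range (n + 1), cl (A ∩ (sh^[r]) ⁻¹' A) hBcl (sh^[i] (x n))) = 0 := by
    refine sum_eq_zero fun i _ => ?_
    rw [cl_apply, Set.indicator_apply, if_neg]
    rintro ⟨h10, h11⟩
    have e1 : (sh^[i] (x n)) 0 = true := h10
    have e2 : (sh^[r] (sh^[i] (x n))) 0 = true := h11
    rw [sh_iter, zero_add, hx] at e1
    rw [sh_iter, sh_iter, zero_add, hx] at e2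
    have e3 : i ∈ LL n := by simpa using e1
    have e4 : r + i ∈ LL n := by simpa using e2
    exact hLL3 n hnG r hr i e3 (by rwa [add_comm] at e4)
  rw [h9, zero_div] at hn
  exact lt_irrefl _ hn

end MP_018e2a_an.OneSet
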