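import Pool.Agent.Lib.MP_018e2a_an.OneSet.Pw
import Pool.Agent.Lib.MP_018e2a_an.OneSet.Fur

/-!
# One set of integers decides the problem
-/

open Finset MeasureTheory Filter Topology

set_option linter.unusedSectionVars false

namespace MP_018e2a_an.OneSet

section

variable {X : Type} [MeasurableSpace X] {μ : Measure X} [IsProbabilityMeasure μ] {T : ℕ → ℕ → X → X}
  (hT : ∀ i j, MeasurePreserving (T i j) μ μ)

include hT in
theorem Pw_mp (K : ℕ) (x : ℕ → ℕ) : MeasurePreserving (Pw T K x) μ μ := by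
  induction K with
  | zero => exact MeasurePreserving.id μ
  | succ K ih => exact ((hT _ _).iterate (x K)).comp ih

/-- the number of good `a` below `w K` for which `y` is sent to `A` -/
noncomputable def DD (T : ℕ → ℕ → X → X) (A : Set X) (K : ℕ) (y : X) : ℝ :=
  ∑ a ∈ good K, (Pw T K (dig a) ⁻¹' A).indicator (fun _ => (1 : ℝ)) y

include hT in
theorem int_DD {A : Set X} (hA : MeasurableSet A) (K : ℕ) :
    ∫ y, DD T A K y ∂μ = (good K).card * μ.real A := by
  unfold DD
  rw [integral_finsetSum]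
  · have h : ∀ a ∈ good K, ∫ y, (Pw T K (dig a) ⁻¹' A).indicator (fun _ => (1 : ℝ)) y ∂μ = μ.real A := by
      intro a _
      have h1 := Pw_mp hT K (dig a)
      rw [integral_indicator (h1.measurable hA)]
      simp only [integral_const, smul_eq_mul, mul_one, measureReal_restrict_apply_univ]
      rw [Measure.real, h1.measure_preimage hA.nullMeasurableSet, Measure.real]
    rw [sum_congr rfl h, sum_const, nsmul_eq_mul]
  · intro a _
    exact (integrable_const (1 : ℝ)).indicator ((Pw_mp hT K (dig a)).measurable hA)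

theorem DD_le (A : Set X) (K : ℕ) (y : X) : DD T A K y ≤ w K := by
  unfold DD
  refine (sum_le_sum (g := fun _ => (1 : ℝ)) fun a _ => ?_).trans ?_
  · exact Set.indicator_le_self' (fun _ _ => zero_le_one) y
  · rw [sum_const, nsmul_eq_mul, mul_one]
    exact_mod_cast card_good_le K

include hT in
theorem DD_meas {A : Set X} (hA : MeasurableSet A) (K : ℕ) : Measurable (DD T A K) := by
  unfold DD
  refine Finset.measurable_sum _ fun a _ => ?_
  exact measurable_const.indicator ((Pw_mp hT K (dig a)).measurable hA)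

/-- the points with many returns -/
def EE (T : ℕ → ℕ → X → X) (A : Set X) (ε : ℝ) (K : ℕ) : Set X := {y | ε * w K ≤ DD T A K y}

include hT in
theorem EE_meas {A : Set X} (hA : MeasurableSet A) (ε : ℝ) (K : ℕ) : MeasurableSet (EE T A ε K) :=
  measurableSet_le measurable_const (DD_meas hT hA K)

include hT in
theorem EE_large {A : Set X} (hA : MeasurableSet A) (K : ℕ) :
    μ.real A / 6 ≤ μ.real (EE T A (μ.real A / 6) K) := by
  set ε := μ.real A / 6 with hε
  have hε0 : 0 ≤ ε := by positivity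
  have hw : (0 : ℝ) < w K := by exact_mod_cast w_pos K
  have hE := EE_meas (μ := μ) hT hA ε K
  have h1 : ∫ y, DD T A K y ∂μ ≤
      ∫ y, ((EE T A ε K).indicator (fun _ => (w K : ℝ)) y + ε * w K) ∂μ := by
    refine integral_mono ?_ ?_ ?_
    · unfold DD
      refine integrable_finsetSum _ fun a _ => ?_
      exact (integrable_const (1 : ℝ)).indicator ((Pw_mp hT K (dig a)).measurable hA)
    · exact ((integrable_const _).indicator hE).add (integrable_const _)
    · intro y
      show DD T A K y ≤ (EE T A ε K).indicator (fun _ => (w K : ℝ)) y + ε * w K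
      by_cases hy : y ∈ EE T A ε K
      · rw [Set.indicator_of_mem hy]
        have := DD_le (T := T) A K y
        nlinarith
      · rw [Set.indicator_of_notMem hy, zero_add]
        exact le_of_lt (not_le.1 hy)
  rw [int_DD hT hA, integral_add ((integrable_const _).indicator hE) (integrable_const _),
    integral_indicator hE] at h1
  simp only [integral_const, smul_eq_mul, measureReal_restrict_apply_univ, probReal_univ, one_mul] at h1
  have h2 := card_good_third K
  have h3 : (w K : ℝ) / 3 * μ.real A ≤ (good K).card * μ.real A :=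
    mul_le_mul_of_nonneg_right h2 measureReal_nonneg
  have h4 : (w K : ℝ) * (μ.real A / 3) ≤ w K * (μ.real (EE T A ε K) + ε) := by linarith
  have h5 := le_of_mul_le_mul_left h4 hw
  have h6 : μ.real A = 6 * ε := by rw [hε]; ring
  linarith

/-- the set of the problem for the point `y` -/
def LL (T : ℕ → ℕ → X → X) (A : Set X) (y : X) : Set ℕ :=
  {a | (∀ k, dig a k + 2 ≤ M k) ∧ ∃ K, a < w K ∧ Pw T K (dig a) y ∈ A}

theorem DD_le_ncard (A : Set X) (K : ℕ) (y : X) :
    DD T A K y ≤ (LL T A y ∩ Set.Iio (w K)).ncard := by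
  classical
  have h1 : DD T A K y = (((good K).filter fun a => Pw T K (dig a) y ∈ A).card : ℝ) := by
    unfold DD
    rw [← Finset.sum_boole]
    refine sum_congr rfl fun a _ => ?_
    rw [Set.indicator_apply]
    rfl
  rw [h1, ← Set.ncard_coe_finset]
  have h2 : (LL T A y ∩ Set.Iio (w K)).Finite := (Set.finite_Iio _).subset Set.inter_subset_right
  have h3 : (((good K).filter fun a => Pw T K (dig a) y ∈ A : Finset ℕ) : Set ℕ) ⊆
      LL T A y ∩ Set.Iio (w K) := by
    intro a ha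
    have ha' := Finset.mem_coe.1 ha
    rw [mem_filter] at ha'
    obtain ⟨h4, h5⟩ := ha'
    unfold good at h4
    rw [mem_filter, mem_range] at h4
    refine ⟨⟨fun k => ?_, K, h4.1, h5⟩, h4.1⟩
    by_cases hk : k < K
    · exact h4.2 k hk
    · rw [dig_eq_zero h4.1 (by omega)]
      have := two_le_M k
      omega
  exact_mod_cast Set.ncard_le_ncard h3 h2

theorem w_tendsto : Tendsto w atTop atTop :=
  tendsto_atTop_mono (fun n => (lt_w n).le) tendsto_id

include hT in
theorem three_one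
    (h : ∀ L : Set ℕ, (∃ c : ℝ, 0 < c ∧ ∃ᶠ n : ℕ in atTop, c * n ≤ (L ∩ Set.Iio n).ncard) →
      ∃ γ : Finset ℕ, γ.Nonempty ∧ ∃ a ∈ L, a + rr γ ∈ L)
    (hc : ∀ i j k l, T i j ∘ T k l = T k l ∘ T i j) {A : Set X} (hA : MeasurableSet A) (hpos : 0 < μ A) :
    ∃ γ : Finset ℕ, γ.Nonempty ∧ 0 < μ (A ∩ (sq T γ) ⁻¹' A) := by
  by_contra hno
  push Not at hno
  have hzero : ∀ γ : Finset ℕ, γ.Nonempty → μ (A ∩ (sq T γ) ⁻¹' A) = 0 := fun γ hγ =>
    le_antisymm (hno γ hγ) bot_le
  set ε := μ.real A / 6 with hε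
  have hε0 : 0 < ε := by
    have : 0 < μ.real A := ENNReal.toReal_pos hpos.ne' (measure_ne_top _ _)
    positivity
  -- the points with infinitely many `K`
  have hU : ∀ m : ℕ, MeasurableSet (⋃ K : ℕ, ⋃ _ : m ≤ K, EE T A ε K) := fun m =>
    MeasurableSet.iUnion fun K => MeasurableSet.iUnion fun _ => EE_meas (μ := μ) hT hA ε K
  have hanti : Antitone fun m : ℕ => ⋃ K : ℕ, ⋃ _ : m ≤ K, EE T A ε K := by
    intro m m' hm y hy
    simp only [Set.mem_iUnion] at hy ⊢
    obtain ⟨K, hK, h1⟩ := hy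
    exact ⟨K, hm.trans hK, h1⟩
  have hlim := tendsto_measure_iInter_atTop (μ := μ) (fun m => (hU m).nullMeasurableSet) hanti
    ⟨0, measure_ne_top _ _⟩
  have hge : ENNReal.ofReal ε ≤ μ (⋂ m : ℕ, ⋃ K : ℕ, ⋃ _ : m ≤ K, EE T A ε K) := by
    refine ge_of_tendsto' hlim fun m => ?_
    refine le_trans ?_ (measure_mono (Set.subset_iUnion₂ (s := fun K (_ : m ≤ K) => EE T A ε K) m le_rfl))
    rw [← ofReal_measureReal]
    exact ENNReal.ofReal_le_ofReal (EE_large hT hA m)
  set Z : Set X := ⋃ L : ℕ, ⋃ a : ℕ, ⋃ γ : {γ : Finset ℕ // γ.Nonempty},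
    (Pw T L (dig a)) ⁻¹' (A ∩ (sq T γ.1) ⁻¹' A) with hZ
  have hZ0 : μ Z = 0 := by
    rw [hZ, measure_iUnion_null_iff]
    intro L
    rw [measure_iUnion_null_iff]
    intro a
    rw [measure_iUnion_null_iff]
    intro γ
    exact (Pw_mp hT L (dig a)).quasiMeasurePreserving.preimage_null (hzero γ.1 γ.2)
  have hne : ((⋂ m : ℕ, ⋃ K : ℕ, ⋃ _ : m ≤ K, EE T A ε K) \ Z).Nonempty := by
    apply nonempty_of_measure_ne_zero (μ := μ)
    rw [measure_sdiff_null hZ0]
    exact (lt_of_lt_of_le (ENNReal.ofReal_pos.2 hε0) hge).ne'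
  obtain ⟨y, hy1, hy2⟩ := hne
  have hfreq : ∃ᶠ n : ℕ in atTop, ε * n ≤ (LL T A y ∩ Set.Iio n).ncard := by
    refine w_tendsto.frequently (p := fun n : ℕ => ε * n ≤ (LL T A y ∩ Set.Iio n).ncard) ?_
    rw [frequently_atTop]
    intro m
    have h1 := Set.mem_iInter.1 hy1 m
    simp only [Set.mem_iUnion] at h1
    obtain ⟨K, hK, h2⟩ := h1
    exact ⟨K, hK, le_trans h2 (DD_le_ncard A K y)⟩
  obtain ⟨γ, hγ, a, ⟨ha1, Ka, ha2, ha3⟩, hb1, Kb, hb2, hb3⟩ := h _ ⟨ε, hε0, hfreq⟩
  obtain ⟨Kg, hKg⟩ := exists_bound γ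
  obtain ⟨L, hL1, hL2, hL3⟩ : ∃ L, Ka ≤ L ∧ Kb ≤ L ∧ Kg ≤ L :=
    ⟨max Ka (max Kb Kg), le_max_left _ _, (le_max_left _ _).trans (le_max_right _ _),
      (le_max_right _ _).trans (le_max_right _ _)⟩
  have e1 : Pw T L (dig a) = Pw T Ka (dig a) := Pw_ext hL1 fun k hk => dig_eq_zero ha2 hk
  have e2 : Pw T L (dig (a + rr γ)) = Pw T Kb (dig (a + rr γ)) :=
    Pw_ext hL2 fun k hk => dig_eq_zero hb2 hk
  have hg : ∀ i ∈ γ, ∀ j ∈ γ, Nat.pair i j < L := fun i hi j hj =>
    lt_of_lt_of_le (hKg i hi j hj) hL3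
  have e3 : val L (dig (a + rr γ)) = val L (ee γ + dig a) := by
    rw [val_add, val_ee hg, val_dig (lt_of_lt_of_le hb2 (w_mono hL2)),
      val_dig (lt_of_lt_of_le ha2 (w_mono hL1)), add_comm]
  have e4 := val_inj (fun k _ => dig_lt _ k) (fun k _ => by
    have h1 := ee_le_one γ k
    have h2 := ha1 k
    show ee γ k + dig a k < M k
    omega) e3
  apply hy2
  rw [hZ]
  simp only [Set.mem_iUnion]
  refine ⟨L, a, ⟨γ, hγ⟩, ?_, ?_⟩
  · rw [e1]
    exact ha3
  · show sq T γ (Pw T L (dig a) y) ∈ A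
    have e5 : Pw T L (dig (a + rr γ)) = sq T γ ∘ Pw T L (dig a) := by
      rw [Pw_congr L e4, Pw_add hc, ← sq_eq hc hg]
    have e6 : Pw T L (dig (a + rr γ)) y ∈ A := by
      rw [e2]
      exact hb3
    rwa [e5] at e6

end

end MP_018e2a_an.OneSet
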