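import Pool.Agent.Lib.MP_018e2a_an.OneSet.Dig

/-!
# Products of powers of commuting maps
-/

open Finset

namespace MP_018e2a_an.OneSet

/-- the commuting maps in one sequence -/
def tt {X : Type} (T : ℕ → ℕ → X → X) (k : ℕ) : X → X := T k.unpair.1 k.unpair.2

/-- the product of the `tt T k ^ x k`, `k < K` -/
def Pw {X : Type} (T : ℕ → ℕ → X → X) : ℕ → (ℕ → ℕ) → X → X
  | 0, _ => id
  | K + 1, x => (tt T K)^[x K] ∘ Pw T K x

/-- the nested product over `γ × γ` as in the problem -/
noncomputable def sq {X : Type} (T : ℕ → ℕ → X → X) (γ : Finset ℕ) : X → X :=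
  List.foldr (fun (i : ℕ) (f : X → X) =>
    (List.foldr (fun (j : ℕ) (g : X → X) => T i j ∘ g) (id : X → X) γ.toList) ∘ f)
    (id : X → X) γ.toList

/-- the number of `(i, j)` in `γ × γ` with `k = pair i j` (zero or one) -/
def ee (γ : Finset ℕ) (k : ℕ) : ℕ := ∑ i ∈ γ, ∑ j ∈ γ, if Nat.pair i j = k then 1 else 0

/-- the integers of the problem -/
def rr (γ : Finset ℕ) : ℕ := ∑ p ∈ γ ×ˢ γ, 2 ^ (Nat.pair p.1 p.2) ^ 2

section

variable {X : Type} {T : ℕ → ℕ → X → X} (hc : ∀ i j k l, T i j ∘ T k l = T k l ∘ T i j)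

include hc in
theorem tt_comm (k l : ℕ) : Function.Commute (tt T k) (tt T l) := by
  intro y
  exact congrFun (hc _ _ _ _) y

include hc in
theorem Pw_comm (K : ℕ) (x : ℕ → ℕ) (l n : ℕ) : Function.Commute ((tt T l)^[n]) (Pw T K x) := by
  induction K with
  | zero => exact Function.Commute.id_right
  | succ K ih =>
    exact Function.Commute.comp_right (((tt_comm hc l K).iterate_left n).iterate_right (x K)) ih

include hc in
theorem Pw_add (K : ℕ) (x y : ℕ → ℕ) : Pw T K (x + y) = Pw T K x ∘ Pw T K y := by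
  induction K with
  | zero => rfl
  | succ K ih =>
    funext z
    show (tt T K)^[x K + y K] (Pw T K (x + y) z) =
      (tt T K)^[x K] (Pw T K x ((tt T K)^[y K] (Pw T K y z)))
    rw [Function.iterate_add_apply, ih]
    show _ = (tt T K)^[x K] (Pw T K x ((tt T K)^[y K] (Pw T K y z)))
    rw [← (Pw_comm hc K x K (y K)) (Pw T K y z)]
    rfl

theorem Pw_zero (K : ℕ) {x : ℕ → ℕ} (h : ∀ k < K, x k = 0) : Pw T K x = id := by
  induction K with
  | zero => rfl
  | succ K ih =>
    show (tt T K)^[x K] ∘ Pw T K x = id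
    rw [h K (by omega), ih fun k hk => h k (by omega)]
    rfl

theorem Pw_congr (K : ℕ) {x y : ℕ → ℕ} (h : ∀ k < K, x k = y k) : Pw T K x = Pw T K y := by
  induction K with
  | zero => rfl
  | succ K ih =>
    show (tt T K)^[x K] ∘ Pw T K x = (tt T K)^[y K] ∘ Pw T K y
    rw [h K (by omega), ih fun k hk => h k (by omega)]

theorem Pw_ext {K L : ℕ} (hKL : K ≤ L) {x : ℕ → ℕ} (h : ∀ k, K ≤ k → x k = 0) :
    Pw T L x = Pw T K x := by
  induction L, hKL using Nat.le_induction with
  | base => rfl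
  | succ L hL ih =>
    show (tt T L)^[x L] ∘ Pw T L x = Pw T K x
    rw [h L hL, ih]
    rfl

theorem Pw_single {K l : ℕ} (hl : l < K) : Pw T K (fun k => if l = k then 1 else 0) = tt T l := by
  induction K with
  | zero => omega
  | succ K ih =>
    show (tt T K)^[if l = K then 1 else 0] ∘ Pw T K (fun k => if l = k then 1 else 0) = tt T l
    by_cases h : l = K
    · rw [if_pos h, Pw_zero K (by intro k hk; rw [if_neg (by omega)]), h]
      rfl
    · rw [if_neg h, ih (by omega)]
      rfl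

include hc in
theorem foldr_Pw (K : ℕ) (F : ℕ → ℕ → ℕ) (L : List ℕ) :
    List.foldr (fun (i : ℕ) (f : X → X) => Pw T K (F i) ∘ f) (id : X → X) L =
      Pw T K ((L.map F).sum) := by
  induction L with
  | nil =>
    rw [List.map_nil, List.sum_nil, Pw_zero (x := (0 : ℕ → ℕ)) K (fun k _ => rfl)]
    rfl
  | cons a L ih =>
    rw [List.foldr_cons, ih, List.map_cons, List.sum_cons, Pw_add hc]

include hc in
theorem sq_eq {γ : Finset ℕ} {K : ℕ} (hK : ∀ i ∈ γ, ∀ j ∈ γ, Nat.pair i j < K) :
    sq T γ = Pw T K (ee γ) := by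
  have h1 : ∀ i ∈ γ, List.foldr (fun (j : ℕ) (g : X → X) => T i j ∘ g) (id : X → X) γ.toList =
      Pw T K (∑ j ∈ γ, fun k => if Nat.pair i j = k then 1 else 0) := by
    intro i hi
    have h2 : ∀ L : List ℕ, (∀ j ∈ L, j ∈ γ) →
        List.foldr (fun (j : ℕ) (g : X → X) => T i j ∘ g) (id : X → X) L =
        List.foldr (fun (j : ℕ) (g : X → X) => Pw T K (fun k => if Nat.pair i j = k then 1 else 0) ∘ g)
          (id : X → X) L := by
      intro L
      induction L with
      | nil => intro _; rfl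
      | cons a L ih =>
        intro h
        rw [List.foldr_cons, List.foldr_cons, ih fun j hj => h j (List.mem_cons_of_mem _ hj),
          Pw_single (hK i hi a (h a List.mem_cons_self))]
        unfold tt
        rw [Nat.unpair_pair]
    rw [h2 _ (fun j hj => Finset.mem_toList.1 hj), foldr_Pw hc]
    congr 1
    exact Finset.sum_map_toList γ _
  have h3 : ∀ L : List ℕ, (∀ i ∈ L, i ∈ γ) →
      List.foldr (fun (i : ℕ) (f : X → X) =>
        (List.foldr (fun (j : ℕ) (g : X → X) => T i j ∘ g) (id : X → X) γ.toList) ∘ f)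
        (id : X → X) L =
      List.foldr (fun (i : ℕ) (f : X → X) =>
        Pw T K (∑ j ∈ γ, fun k => if Nat.pair i j = k then 1 else 0) ∘ f) (id : X → X) L := by
    intro L
    induction L with
    | nil => intro _; rfl
    | cons a L ih =>
      intro h
      rw [List.foldr_cons, List.foldr_cons, ih fun j hj => h j (List.mem_cons_of_mem _ hj),
        h1 a (h a List.mem_cons_self)]
  unfold sq
  rw [h3 _ (fun j hj => Finset.mem_toList.1 hj), foldr_Pw hc]
  congr 1
  rw [Finset.sum_map_toList]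
  funext k
  unfold ee
  rw [Finset.sum_apply]
  refine sum_congr rfl fun i _ => ?_
  rw [Finset.sum_apply]

end

theorem ee_le_one (γ : Finset ℕ) (k : ℕ) : ee γ k ≤ 1 := by
  unfold ee
  rw [← sum_product']
  have h : ∀ p ∈ γ ×ˢ γ, (if Nat.pair p.1 p.2 = k then 1 else 0) =
      if p = k.unpair then 1 else 0 := by
    intro p _
    have : Nat.pair p.1 p.2 = k ↔ p = k.unpair := by
      constructor
      · intro h; rw [← h, Nat.unpair_pair]
      · intro h; rw [h, Nat.pair_unpair]
    simp only [this]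
  rw [sum_congr rfl h, sum_ite_eq']
  split_ifs <;> omega

theorem val_ee {γ : Finset ℕ} {K : ℕ} (hK : ∀ i ∈ γ, ∀ j ∈ γ, Nat.pair i j < K) :
    val K (ee γ) = rr γ := by
  unfold val ee rr
  rw [sum_product]
  simp_rw [sum_mul]
  rw [sum_comm]
  refine sum_congr rfl fun i hi => ?_
  rw [sum_comm]
  refine sum_congr rfl fun j hj => ?_
  have h : ∀ k ∈ range K, (if Nat.pair i j = k then 1 else 0) * w k =
      if Nat.pair i j = k then w (Nat.pair i j) else 0 := by
    intro k _
    split_ifs with h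
    · rw [one_mul, h]
    · rw [zero_mul]
  rw [sum_congr rfl h, sum_ite_eq, if_pos (mem_range.2 (hK i hi j hj))]
  rfl

theorem exists_bound (γ : Finset ℕ) : ∃ K, ∀ i ∈ γ, ∀ j ∈ γ, Nat.pair i j < K := by
  refine ⟨(γ ×ˢ γ).sup (fun p => Nat.pair p.1 p.2) + 1, fun i hi j hj => ?_⟩
  have h : (i, j) ∈ γ ×ˢ γ := mem_product.2 ⟨hi, hj⟩
  exact Nat.lt_succ_of_le (Finset.le_sup (f := fun p : ℕ × ℕ => Nat.pair p.1 p.2) h)

/-- powers of one map -/
theorem sq_iterate {X : Type} (S : X → X) (n : ℕ → ℕ → ℕ) (γ : Finset ℕ) :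
    sq (fun i j => S^[n i j]) γ = S^[∑ p ∈ γ ×ˢ γ, n p.1 p.2] := by
  have h0 : ∀ (F : ℕ → ℕ) (L : List ℕ),
      List.foldr (fun (i : ℕ) (f : X → X) => S^[F i] ∘ f) (id : X → X) L = S^[(L.map F).sum] := by
    intro F L
    induction L with
    | nil => rfl
    | cons a L ih => rw [List.foldr_cons, ih, List.map_cons, List.sum_cons, Function.iterate_add]
  unfold sq
  simp only [h0]
  congr 1
  rw [Finset.sum_map_toList, sum_product]
  refine sum_congr rfl fun i _ => ?_
  rw [Finset.sum_map_toList]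

end MP_018e2a_an.OneSet
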