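import Pool.Agent.Lib.MP_018e2a_an.OneSet.Main

/-!
# The uniform form
-/

open Finset MeasureTheory Filter Topology

set_option linter.unusedSectionVars false

namespace MP_018e2a_an.OneSet

theorem pair_lt {γ : Finset ℕ} {K b : ℕ} (h : rr γ ≤ b) (hb : b < w K) :
    ∀ i ∈ γ, ∀ j ∈ γ, Nat.pair i j < K := by
  intro i hi j hj
  by_contra hno
  push Not at hno
  have h1 : 2 ^ (Nat.pair i j) ^ 2 ≤ rr γ := by
    unfold rr
    exact single_le_sum (f := fun p : ℕ × ℕ => 2 ^ (Nat.pair p.1 p.2) ^ 2) (fun _ _ => Nat.zero_le _)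
      (mem_product.2 ⟨hi, hj⟩ : ((i, j) : ℕ × ℕ) ∈ γ ×ˢ γ)
  have h2 : w K ≤ 2 ^ (Nat.pair i j) ^ 2 := w_mono hno
  omega

/-- no carries -/
theorem step {X : Type} {T : ℕ → ℕ → X → X} (hc : ∀ i j k l, T i j ∘ T k l = T k l ∘ T i j)
    {γ : Finset ℕ} {K a : ℕ} (ha : ∀ k < K, dig a k + 2 ≤ M k) (hb : a + rr γ < w K) :
    Pw T K (dig (a + rr γ)) = sq T γ ∘ Pw T K (dig a) := by
  have hg := pair_lt (Nat.le_add_left (rr γ) a) hb
  have e3 : val K (dig (a + rr γ)) = val K (ee γ + dig a) := by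
    rw [val_add, val_ee hg, val_dig hb, val_dig (lt_of_le_of_lt (Nat.le_add_right a (rr γ)) hb), add_comm]
  have e4 := val_inj (fun k _ => dig_lt _ k) (fun k hk => by
    have h1 := ee_le_one γ k
    have h2 := ha k hk
    show ee γ k + dig a k < M k
    omega) e3
  rw [Pw_congr K e4, Pw_add hc, ← sq_eq hc hg]

theorem uniform
    (h : ∀ ε : ℝ, 0 < ε → ∃ N₀ : ℕ, ∀ N ≥ N₀, ∀ L : Finset ℕ, L ⊆ Finset.range N → ε * N ≤ L.card →
        ∃ γ : Finset ℕ, γ.Nonempty ∧ ∃ a ∈ L, a + rr γ ∈ L) {δ : ℝ} (hδ : 0 < δ) :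
    ∃ n : ℕ, ∃ c : ℝ, 0 < c ∧ ∀ (X : Type) [MeasurableSpace X] (μ : Measure X) [IsProbabilityMeasure μ]
      (T : ℕ → ℕ → X → X), (∀ i j, MeasurePreserving (T i j) μ μ) →
      (∀ i j k l, T i j ∘ T k l = T k l ∘ T i j) → ∀ A : Set X, MeasurableSet A → δ ≤ μ.real A →
      ∃ γ : Finset ℕ, γ.Nonempty ∧ γ ⊆ range n ∧ c ≤ μ.real (A ∩ (sq T γ) ⁻¹' A) := by
  classical
  set ε : ℝ := δ / 6 with hε
  have hε0 : 0 < ε := by positivity
  obtain ⟨K, hK⟩ := h ε hε0
  have hw : (0 : ℝ) < w K := by exact_mod_cast w_pos K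
  refine ⟨K, ε / (2 * (w K * 2 ^ K)), by positivity, ?_⟩
  intro X _ μ _ T hT hc A hA hδA
  by_contra hno
  push Not at hno
  have h1 := EE_large (μ := μ) hT hA K
  have h2 : EE T A (μ.real A / 6) K ⊆ EE T A ε K := by
    intro y hy
    have hy' : μ.real A / 6 * w K ≤ DD T A K y := hy
    exact le_trans (mul_le_mul_of_nonneg_right (by rw [hε]; linarith) hw.le) hy'
  have h3 : ε ≤ μ.real (EE T A ε K) :=
    le_trans (by rw [hε]; linarith) (h1.trans (measureReal_mono h2 (measure_ne_top _ _)))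
  have h4 : EE T A ε K ⊆ ⋃ a ∈ range (w K), ⋃ γ ∈ ((range K).powerset.filter fun γ => γ.Nonempty),
      (Pw T K (dig a)) ⁻¹' (A ∩ (sq T γ) ⁻¹' A) := by
    intro y hy
    have h5 : DD T A K y = (((good K).filter fun a => Pw T K (dig a) y ∈ A).card : ℝ) := by
      unfold DD
      rw [← Finset.sum_boole]
      refine sum_congr rfl fun a _ => ?_
      rw [Set.indicator_apply]
      rfl
    have h6 : ε * w K ≤ DD T A K y := hy
    rw [h5] at h6
    obtain ⟨γ, hγ, a, ha, hb⟩ := hK (w K) (lt_w K).le ((good K).filter fun a => Pw T K (dig a) y ∈ A)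
      (fun a ha => by
        rw [mem_filter] at ha
        unfold good at ha
        exact (mem_filter.1 ha.1).1) h6
    rw [mem_filter] at ha hb
    unfold good at ha hb
    rw [mem_filter, mem_range] at ha hb
    have h7 := pair_lt (Nat.le_add_left (rr γ) a) hb.1.1
    simp only [Set.mem_iUnion, mem_filter, mem_powerset]
    refine ⟨a, mem_range.2 ha.1.1, γ, ⟨fun i hi => ?_, hγ⟩, ha.2, ?_⟩
    · exact mem_range.2 (lt_of_le_of_lt (Nat.left_le_pair i i) (h7 i hi i hi))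
    · have h8 := hb.2
      rw [step hc ha.1.2 hb.1.1] at h8
      exact h8
  have h5 : μ.real (⋃ a ∈ range (w K), ⋃ γ ∈ ((range K).powerset.filter fun γ => γ.Nonempty),
      (Pw T K (dig a)) ⁻¹' (A ∩ (sq T γ) ⁻¹' A)) ≤ ε / 2 := by
    refine (measureReal_biUnion_finset_le _ _).trans ?_
    have h6 : ∀ a ∈ range (w K), μ.real (⋃ γ ∈ ((range K).powerset.filter fun γ => γ.Nonempty),
        (Pw T K (dig a)) ⁻¹' (A ∩ (sq T γ) ⁻¹' A)) ≤ 2 ^ K * (ε / (2 * (w K * 2 ^ K))) := by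
      intro a _
      refine (measureReal_biUnion_finset_le _ _).trans ?_
      have h7 : ∀ γ ∈ ((range K).powerset.filter fun γ => γ.Nonempty),
          μ.real ((Pw T K (dig a)) ⁻¹' (A ∩ (sq T γ) ⁻¹' A)) ≤ ε / (2 * (w K * 2 ^ K)) := by
        intro γ hγ
        rw [mem_filter, mem_powerset] at hγ
        have h8 : MeasurableSet (A ∩ (sq T γ) ⁻¹' A) := by
          obtain ⟨L, hL⟩ := exists_bound γ
          rw [sq_eq hc hL]
          exact hA.inter ((Pw_mp hT L (ee γ)).measurable hA)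
        rw [Measure.real, (Pw_mp hT K (dig a)).measure_preimage h8.nullMeasurableSet, ← Measure.real]
        exact (hno γ hγ.2 hγ.1).le
      refine (sum_le_card_nsmul _ _ _ h7).trans ?_
      rw [nsmul_eq_mul]
      refine mul_le_mul_of_nonneg_right ?_ (by positivity)
      have h9 : ((range K).powerset.filter fun γ => γ.Nonempty).card ≤ 2 ^ K :=
        (card_filter_le _ _).trans (by rw [card_powerset, card_range])
      exact_mod_cast h9
    refine (sum_le_card_nsmul _ _ _ h6).trans ?_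
    rw [nsmul_eq_mul, card_range]
    refine le_of_eq ?_
    field_simp
  have h6 := h3.trans ((measureReal_mono h4 (measure_ne_top _ _)).trans h5)
  linarith

end MP_018e2a_an.OneSet
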